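import Mathlib

set_option autoImplicit false

namespace Pool.Agent.H.MP_2b3a02_al

open Matrix

/-- the elementary subgroup -/
def En (n : ℕ) (R : Type) [Ring R] : Subgroup (Matrix (Fin n) (Fin n) R)ˣ :=
  Subgroup.closure {g | ∃ (k l : Fin n) (a : R), k ≠ l ∧ g.val = 1 + single k l a}

/-- an elementary conjugate of `σ` or of its inverse -/
def Fac {n : ℕ} {R : Type} [Ring R] (σ g : (Matrix (Fin n) (Fin n) R)ˣ) : Prop :=
  ∃ τ ∈ En n R, g = τ⁻¹ * σ * τ ∨ g = τ⁻¹ * σ⁻¹ * τ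

/-- `m` is an RDU bound for the ring `R` -/
def RDU (R : Type) [Ring R] (m : ℕ) : Prop :=
  ∀ n : ℕ, 3 ≤ n → ∀ (σ : (Matrix (Fin n) (Fin n) R)ˣ) (k l i j : Fin n), k ≠ l → i ≠ j →
    ∃ L : List (Matrix (Fin n) (Fin n) R)ˣ, L.length ≤ m ∧ (∀ g ∈ L, Fac σ g) ∧
      L.prod.val = 1 + single k l (σ.val i j)

/-- stable rank one -/
def SR1 (R : Type) [Ring R] : Prop :=
  ∀ a b : R, (∃ x y : R, x * a + y * b = 1) → ∃ c : R, IsUnit (a + c * b)

variable {n : ℕ} {R : Type} [Ring R]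

/-- products of at most `m` factors -/
def PP (σ : (Matrix (Fin n) (Fin n) R)ˣ) (m : ℕ) (g : (Matrix (Fin n) (Fin n) R)ˣ) : Prop :=
  ∃ L : List (Matrix (Fin n) (Fin n) R)ˣ, L.length ≤ m ∧ (∀ x ∈ L, Fac σ x) ∧ L.prod = g

variable {σ : (Matrix (Fin n) (Fin n) R)ˣ}

theorem PP.one {g : (Matrix (Fin n) (Fin n) R)ˣ} (h : Fac σ g) : PP σ 1 g :=
  ⟨[g], le_rfl, by simpa using h, by simp⟩

theorem PP.mul {a b : ℕ} {g h : (Matrix (Fin n) (Fin n) R)ˣ} (h1 : PP σ a g) (h2 : PP σ b h) :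
    PP σ (a + b) (g * h) := by
  obtain ⟨L, l1, l2, rfl⟩ := h1
  obtain ⟨M, m1, m2, rfl⟩ := h2
  refine ⟨L ++ M, by simp; omega, fun x hx => ?_, by simp⟩
  exact (List.mem_append.1 hx).elim (l2 x) (m2 x)

theorem PP.conj {a : ℕ} {g e : (Matrix (Fin n) (Fin n) R)ˣ} (h1 : PP σ a g) (he : e ∈ En n R) :
    PP σ a (e * g * e⁻¹) := by
  obtain ⟨L, l1, l2, rfl⟩ := h1
  refine ⟨L.map (MulAut.conj e), by simpa using l1, fun x hx => ?_, ?_⟩
  · obtain ⟨y, hy, rfl⟩ := List.mem_map.1 hx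
    obtain ⟨τ, hτ, h⟩ := l2 y hy
    refine ⟨τ * e⁻¹, Subgroup.mul_mem _ hτ (Subgroup.inv_mem _ he), ?_⟩
    rcases h with rfl | rfl
    · left
      simp [mul_assoc]
    · right
      simp [mul_assoc]
  · rw [← map_list_prod]
    rfl

theorem PP.inv {a : ℕ} {g : (Matrix (Fin n) (Fin n) R)ˣ} (h1 : PP σ a g) : PP σ a g⁻¹ := by
  obtain ⟨L, l1, l2, rfl⟩ := h1
  refine ⟨(L.map fun x => x⁻¹).reverse, by simpa using l1, fun x hx => ?_,
    (List.prod_inv_reverse L).symm⟩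
  obtain ⟨y, hy, rfl⟩ := List.mem_map.1 (List.mem_reverse.1 hx)
  obtain ⟨τ, hτ, h⟩ := l2 y hy
  refine ⟨τ, hτ, ?_⟩
  rcases h with rfl | rfl
  · right
    simp [mul_assoc]
  · left
    simp [mul_assoc]

/-- elementary transvection -/
def tv (k l : Fin n) (h : k ≠ l) (a : R) : (Matrix (Fin n) (Fin n) R)ˣ where
  val := 1 + single k l a
  inv := 1 - single k l a
  val_inv := by simp [add_mul, mul_sub, single_mul_single_of_ne _ _ _ _ h.symm]
  inv_val := by simp [mul_add, sub_mul, single_mul_single_of_ne _ _ _ _ h.symm]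

theorem tv_mem (k l : Fin n) (h : k ≠ l) (a : R) : tv k l h a ∈ En n R :=
  Subgroup.subset_closure ⟨k, l, a, h, rfl⟩

theorem tv_val (k l : Fin n) (h : k ≠ l) (a : R) : (tv k l h a).val = 1 + single k l a := rfl

theorem tv_inv (k l : Fin n) (h : k ≠ l) (a : R) : (tv k l h a)⁻¹.val = 1 - single k l a := rfl

theorem key {p i j : Fin n} (hpi : p ≠ i) (hpj : p ≠ j) (hij : i ≠ j) (x y b : R)
    (h : x * σ.val j j + y * σ.val i j = 0) : PP σ 8 (tv j i hij.symm (x * b)) := by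
  let τ := tv p j hpj x * tv p i hpi y
  have hτ : τ ∈ En n R := Subgroup.mul_mem _ (tv_mem _ _ _ _) (tv_mem _ _ _ _)
  let g := tv j i hij.symm b
  let k := tv j p hpj.symm (1 : R)
  have p2 : PP σ (1 + 1) (τ⁻¹ * σ⁻¹ * τ * σ) :=
    (PP.one ⟨τ, hτ, Or.inr rfl⟩).mul (PP.one ⟨1, Subgroup.one_mem _, Or.inl (by simp)⟩)
  have p4 := (p2.mul (p2.inv.conj (tv_mem j i hij.symm b))).conj hτ
  have e4 : τ * (τ⁻¹ * σ⁻¹ * τ * σ * (g * (τ⁻¹ * σ⁻¹ * τ * σ)⁻¹ * g⁻¹)) * τ⁻¹ =
      (σ⁻¹ * τ * σ) * g * (σ⁻¹ * τ⁻¹ * σ) * (τ * g⁻¹ * τ⁻¹) := by group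
  rw [e4] at p4
  generalize hζ : (σ⁻¹ * τ * σ) * g * (σ⁻¹ * τ⁻¹ * σ) * (τ * g⁻¹ * τ⁻¹) = ζ at p4
  have p8 := p4.mul (p4.inv.conj (tv_mem j p hpj.symm 1))
  suffices e : ζ * k = tv j i hij.symm (x * b) * k * ζ by
    have : ζ * (k * ζ⁻¹ * k⁻¹) = tv j i hij.symm (x * b) := by
      rw [← mul_assoc, ← mul_assoc, e]
      group
    rwa [this] at p8
  set N : Matrix (Fin n) (Fin n) R := single p j x + single p i y with hN
  have t1 : τ.val = 1 + N := by
    simp [τ, tv_val, hN, mul_add, add_mul, single_mul_single_of_ne _ _ _ _ hpj.symm, add_assoc]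
  have t2 : τ⁻¹.val = 1 - N := by
    simp only [τ, _root_.mul_inv_rev, Units.val_mul, tv_inv, hN, mul_sub, sub_mul, mul_one, one_mul,
      single_mul_single_of_ne _ _ _ _ hpi.symm]
    abel
  set K : Matrix (Fin n) (Fin n) R := σ⁻¹.val * N * σ.val with hK
  have hK0 : ∀ (l : Fin n) (c : R), K * single j l c = 0 := by
    intro l c
    rw [hK, mul_assoc, mul_assoc, ← mul_assoc N, hN, add_mul, add_mul, single_mul_mul_single,
      single_mul_mul_single, ← single_add, ← add_mul, h]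
    simp
  have x1 : (σ⁻¹ * τ * σ).val = 1 + K := by
    simp only [Units.val_mul, t1, mul_add, add_mul, mul_one, Units.inv_mul, hK]
  have x2 : (σ⁻¹ * τ⁻¹ * σ).val = 1 - K := by
    simp only [Units.val_mul, t2, mul_sub, sub_mul, mul_one, Units.inv_mul, hK]
  have x3 : (1 + K) * (1 - K) = 1 := by
    have : σ⁻¹ * τ * σ * (σ⁻¹ * τ⁻¹ * σ) = 1 := by group
    rw [← x1, ← x2, ← Units.val_mul, this, Units.val_one]
  have z1 : ((σ⁻¹ * τ * σ) * g * (σ⁻¹ * τ⁻¹ * σ)).val = 1 + single j i b * (1 - K) := by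
    rw [Units.val_mul, Units.val_mul, x1, x2, tv_val, mul_add (1 + K), add_mul, mul_one, x3,
      add_mul 1 K, hK0, one_mul, add_zero]
  have z2 : (τ * g⁻¹ * τ⁻¹).val = 1 - (single j i b + single p i (x * b)) := by
    have x4 : (1 + N) * (1 - N) = 1 := by
      rw [← t1, ← t2, ← Units.val_mul]
      simp
    rw [Units.val_mul, Units.val_mul, t1, t2, tv_inv, mul_sub (1 + N), sub_mul, mul_one, x4]
    simp [hN, mul_add, add_mul, mul_sub, single_mul_single_of_ne _ _ _ _ hpi.symm,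
      single_mul_single_of_ne _ _ _ _ hij]
  have z3 : ζ.val = (1 + single j i b * (1 - K)) * (1 - (single j i b + single p i (x * b))) := by
    rw [← hζ, Units.val_mul, z1, z2]
  have a1 : ζ.val * single j p 1 = single j p 1 := by
    rw [z3, mul_assoc]
    simp [add_mul, sub_mul, mul_assoc, hK0, single_mul_single_of_ne _ _ _ _ hij]
  have a2 : single j p 1 * ζ.val = single j p 1 - single j i (x * b) := by
    rw [z3, ← mul_assoc]
    simp [mul_add, mul_sub, ← mul_assoc, single_mul_single_of_ne _ _ _ _ hpj]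
  have a3 : single j i (x * b) * ζ.val = single j i (x * b) := by
    rw [z3, ← mul_assoc]
    simp [mul_add, mul_sub, ← mul_assoc, single_mul_single_of_ne _ _ _ _ hij,
      single_mul_single_of_ne _ _ _ _ hpi.symm]
  apply Units.ext
  simp only [Units.val_mul, k, tv_val, mul_add, add_mul, mul_one, one_mul, a1, a2, a3,
    single_mul_single_of_ne _ _ _ _ hij, zero_mul]
  abel

theorem move1 {m : ℕ} {a b c : Fin n} (hab : a ≠ b) (hcb : c ≠ b) (x : R)
    (h : PP σ m (tv a b hab x)) : PP σ m (tv c b hcb x) := by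
  by_cases hac : a = c
  · subst hac
    exact h
  have := h.conj (Subgroup.mul_mem _ (tv_mem a c hac (-1)) (tv_mem c a (Ne.symm hac) 1))
  convert this using 1
  rw [eq_mul_inv_iff_mul_eq]
  apply Units.ext
  simp [tv_val, mul_add, add_mul, single_mul_single_of_ne _ _ _ _ hab.symm,
    single_mul_single_of_ne _ _ _ _ hcb.symm, single_mul_single_of_ne _ _ _ _ (Ne.symm hac),
    ← single_neg]
  abel

theorem move2 {m : ℕ} {a b c : Fin n} (hab : a ≠ b) (hac : a ≠ c) (x : R)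
    (h : PP σ m (tv a b hab x)) : PP σ m (tv a c hac x) := by
  by_cases hbc : b = c
  · subst hbc
    exact h
  have := h.conj (Subgroup.mul_mem _ (tv_mem c b (Ne.symm hbc) 1) (tv_mem b c hbc (-1)))
  convert this using 1
  rw [eq_mul_inv_iff_mul_eq]
  apply Units.ext
  simp [tv_val, mul_add, add_mul, single_mul_single_of_ne _ _ _ _ hab.symm,
    single_mul_single_of_ne _ _ _ _ hac.symm, single_mul_single_of_ne _ _ _ _ (Ne.symm hbc),
    ← mul_assoc, ← single_neg]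
  abel

theorem third (hn : 3 ≤ n) (a b : Fin n) : ∃ c, c ≠ a ∧ c ≠ b := by
  by_contra h
  push Not at h
  have : (Finset.univ : Finset (Fin n)) ⊆ {a, b} := fun c _ => by
    by_cases h1 : c = a
    · simp [h1]
    · simp [h c h1]
  have h2 := (Finset.card_le_card this).trans Finset.card_le_two
  simp at h2
  omega

theorem move (hn : 3 ≤ n) {m : ℕ} {a b k l : Fin n} (hab : a ≠ b) (hkl : k ≠ l) (x : R)
    (h : PP σ m (tv a b hab x)) : PP σ m (tv k l hkl x) := by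
  obtain ⟨c, h1, h2⟩ := third hn a k
  exact move2 h2.symm hkl x (move1 h1.symm h2.symm x (move2 hab h1.symm x h))

theorem fin_PP {m : ℕ} {k l : Fin n} (hkl : k ≠ l) {x : R} (h : PP σ m (tv k l hkl x)) :
    ∃ L : List (Matrix (Fin n) (Fin n) R)ˣ, L.length ≤ m ∧ (∀ g ∈ L, Fac σ g) ∧
      L.prod.val = 1 + single k l x := by
  obtain ⟨L, h1, h2, h3⟩ := h
  exact ⟨L, h1, h2, by rw [h3, tv_val]⟩

theorem rdu_comm (R : Type) [CommRing R] : RDU R 8 := by
  intro n hn σ k l i j hkl hij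
  obtain ⟨p, h1, h2⟩ := third hn i j
  have := key (σ := σ) h1 h2 hij (σ.val i j) (-σ.val j j) 1 (by ring)
  rw [mul_one] at this
  exact fin_PP hkl (move hn _ hkl _ this)

theorem row_mem (j : Fin n) (w : Fin n → R) (T : Finset (Fin n)) (hT : j ∉ T) :
    ∃ s ∈ En n R, s.val = 1 + ∑ k ∈ T, single j k (w k) := by
  induction T using Finset.induction_on with
  | empty => exact ⟨1, Subgroup.one_mem _, by simp⟩
  | insert a T ha ih =>
    obtain ⟨s, hs, e⟩ := ih fun h => hT (Finset.mem_insert_of_mem h)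
    have hja : j ≠ a := fun h => hT (h ▸ Finset.mem_insert_self _ _)
    refine ⟨tv j a hja (w a) * s, Subgroup.mul_mem _ (tv_mem _ _ _ _) hs, ?_⟩
    rw [Units.val_mul, e, tv_val, Finset.sum_insert ha]
    simp [mul_add, add_mul, Finset.mul_sum, single_mul_single_of_ne _ _ _ _ hja.symm, add_assoc]

theorem rdu_sr1 (R : Type) [Ring R] (hR : SR1 R) : RDU R 8 := by
  intro n hn σ k l i j hkl hij
  obtain ⟨p, h1, h2⟩ := third hn i j
  have h3 := congrFun (congrFun σ.inv_mul j) j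
  rw [Matrix.mul_apply, ← Finset.add_sum_erase _ _ (Finset.mem_univ j), one_apply_eq] at h3
  obtain ⟨c, u, hu⟩ := hR (σ.val j j) (∑ a ∈ Finset.univ.erase j, σ⁻¹.val j a * σ.val a j)
    ⟨σ⁻¹.val j j, 1, by rw [one_mul, h3]⟩
  obtain ⟨s, hs, e⟩ := row_mem j (fun a => c * σ⁻¹.val j a) (Finset.univ.erase j) (by simp)
  have hcol : ∀ a, (s * σ * s⁻¹).val a j = (s.val * σ.val) a j := by
    intro a
    have : s.val * σ.val = (s * σ * s⁻¹).val * s.val := by simp
    rw [this, e, mul_add, mul_one, Finset.mul_sum, Matrix.add_apply, Matrix.sum_apply,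
      Finset.sum_eq_zero, add_zero]
    intro b hb
    exact mul_single_apply_of_ne _ _ _ _ _ (Finset.ne_of_mem_erase hb).symm _
  have hjj : (s * σ * s⁻¹).val j j = u := by
    rw [hcol, e, add_mul, one_mul, Finset.sum_mul, Matrix.add_apply, Matrix.sum_apply, hu,
      Finset.mul_sum]
    simp [mul_assoc]
  have hij' : (s * σ * s⁻¹).val i j = σ.val i j := by
    rw [hcol, e, add_mul, one_mul, Finset.sum_mul, Matrix.add_apply, Matrix.sum_apply,
      Finset.sum_eq_zero, add_zero]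
    intro b _
    exact single_mul_apply_of_ne _ _ _ _ _ hij _
  have := key (σ := s * σ * s⁻¹) h1 h2 hij (-(σ.val i j * u⁻¹.val)) 1 (-u.val)
    (by rw [hjj, hij']; simp)
  have e2 : -(σ.val i j * u⁻¹.val) * -u.val = σ.val i j := by simp
  rw [e2] at this
  obtain ⟨L, l1, l2, l3⟩ := fin_PP hkl (move hn _ hkl _ this)
  refine ⟨L, l1, fun g hg => ?_, l3⟩
  obtain ⟨τ, hτ, h⟩ := l2 g hg
  refine ⟨s⁻¹ * τ, Subgroup.mul_mem _ (Subgroup.inv_mem _ hs) hτ, ?_⟩
  rcases h with rfl | rfl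
  · left
    simp [mul_assoc]
  · right
    simp [mul_assoc]

end Pool.Agent.H.MP_2b3a02_al
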