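import Pool.Agent.H.MP_2b3a02_al.A

set_option autoImplicit false

namespace Pool.Agent.H.MP_2b3a02_al

open Matrix

/-- three by three matrices over the field with two elements -/
abbrev M3 : Type := Matrix (Fin 3) (Fin 3) (ZMod 2)

/-- explicit determinant -/
def dd (a b c d e f g h i : ZMod 2) : ZMod 2 :=
  a * e * i - a * f * h - b * d * i + b * f * g + c * d * h - c * e * g

/-- inner statement -/
def QQ (a b c d e f g h i : ZMod 2) : Prop := ∀ a' b' c' d' e' f' g' h' i' : ZMod 2,
    dd a' b' c' d' e' f' g' h' i' = 1 → dd a' (b' + 1) c' d' e' f' g' h' i' = 1 →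
    dd (a + a') (b + b') (c + c') (d + d') (e + e') (f + f') (g + g') (h + h') (i + i') = 1 →
    dd (a + a') (b + b' + 1) (c + c') (d + d') (e + e') (f + f') (g + g') (h + h') (i + i') ≠ 1

instance (a b c d e f g h i : ZMod 2) : Decidable (QQ a b c d e f g h i) := by
  unfold QQ
  infer_instance

theorem brute : ∀ a b c d e f g h i : ZMod 2, dd a b c d e f g h i = 1 →
    dd a (b + 1) c d e f g h i = 1 → QQ a b c d e f g h i := by
  decide +kernel

/-- the rank one matrix -/
def vv : M3 := single 0 1 1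

theorem det_dd (a : M3) : a.det = dd (a 0 0) (a 0 1) (a 0 2) (a 1 0) (a 1 1) (a 1 2)
    (a 2 0) (a 2 1) (a 2 2) := det_fin_three a

theorem brute' (a b : M3) (h1 : a.det = 1) (h2 : (a + vv).det = 1) (h3 : b.det = 1)
    (h4 : (b + vv).det = 1) (h5 : (a + b).det = 1) (h6 : (a + b + vv).det = 1) : False := by
  rw [det_dd] at h1 h2 h3 h4 h5 h6
  simp only [vv, Matrix.add_apply, single_apply_same] at h2 h4 h5 h6
  simp only [single_apply] at h2 h4 h6
  refine brute _ _ _ _ _ _ _ _ _ h1 (by simpa using h2) _ _ _ _ _ _ _ _ _ h3 (by simpa using h4) h5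
    (by simpa using h6)

theorem add_self3 (a : M3) : a + a = 0 := by
  ext i j
  exact CharTwo.add_self_eq_zero _

theorem side (S : Finset M3) (hS : ∀ a ∈ S, a.det = 1) (W : Submodule (ZMod 2) M3)
    (hv : vv ∈ W) (hW : ∀ a ∈ S, a ∈ W) :
    S.card + 2 ≤ 2 ^ Module.finrank (ZMod 2) W ∧ (S.card = 6 → 4 ≤ Module.finrank (ZMod 2) W) := by
  classical
  have hc : Nat.card W = 2 ^ Module.finrank (ZMod 2) W := by
    rw [Module.natCard_eq_pow_finrank (K := ZMod 2), Nat.card_zmod]
  have d0 : (0 : M3).det ≠ 1 := by simp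
  have dv : vv.det ≠ 1 := by
    rw [det_dd]
    decide
  have v0 : vv ≠ 0 := fun h => by simpa [vv] using congrFun (congrFun h 0) 1
  let T : Finset M3 := insert 0 (insert vv S)
  have hT : T.card = S.card + 2 := by
    rw [Finset.card_insert_of_notMem, Finset.card_insert_of_notMem fun h => dv (hS _ h)]
    simp only [Finset.mem_insert, not_or]
    exact ⟨v0.symm, fun h => d0 (hS _ h)⟩
  have hsub : (T : Set M3) ⊆ W := by
    intro x hx
    simp only [T, Finset.coe_insert, Set.mem_insert_iff, Finset.mem_coe] at hx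
    rcases hx with rfl | rfl | hx
    · exact W.zero_mem
    · exact hv
    · exact hW x hx
  have hle := Set.ncard_le_ncard hsub
  rw [Set.ncard_coe_finset, hT] at hle
  have hc' : (W : Set M3).ncard = 2 ^ Module.finrank (ZMod 2) W := hc
  refine ⟨hc' ▸ hle, fun h6 => ?_⟩
  by_contra hlt
  have h8 : 2 ^ Module.finrank (ZMod 2) W ≤ 2 ^ 3 := Nat.pow_le_pow_right (by norm_num) (by omega)
  have heq : (T : Set M3) = W := Set.eq_of_subset_of_ncard_le hsub (by
    rw [Set.ncard_coe_finset, hT, hc']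
    omega)
  have hmem : ∀ x ∈ W, x ≠ 0 → x ≠ vv → x ∈ S := by
    intro x hx h1 h2
    have : x ∈ (T : Set M3) := heq ▸ hx
    simpa [T, h1, h2] using this
  have hadd : ∀ a ∈ S, a + vv ∈ S := by
    intro a ha
    refine hmem _ (W.add_mem (hW a ha) hv) (fun h => ?_) fun h => ?_
    · have : a = vv := by rw [← add_zero a, ← add_self3 vv, ← add_assoc, h, zero_add]
      exact dv (this ▸ hS a ha)
    · exact d0 ((add_eq_right.1 h) ▸ hS a ha)
  obtain ⟨a, ha⟩ : S.Nonempty := Finset.card_pos.1 (by omega)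
  obtain ⟨b, hb, hb2⟩ : ∃ b ∈ S, b ∉ ({a, a + vv} : Finset M3) := by
    by_contra hc
    push Not at hc
    have := (Finset.card_le_card hc).trans Finset.card_le_two
    omega
  simp only [Finset.mem_insert, Finset.mem_singleton, not_or] at hb2
  have hab : a + b ∈ S := by
    refine hmem _ (W.add_mem (hW a ha) (hW b hb)) (fun h => hb2.1 ?_) fun h => hb2.2 ?_
    · rw [← zero_add b, ← add_self3 a, add_assoc, h, add_zero]
    · rw [← h, ← add_assoc, add_self3, zero_add]
  exact brute' a b (hS a ha) (hS _ (hadd a ha)) (hS b hb) (hS _ (hadd b hb)) (hS _ hab)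
    (hS _ (hadd _ hab))

theorem det_unit (a : M3ˣ) : a.val.det = 1 := by
  have h : a.val.det * a⁻¹.val.det = 1 := by rw [← det_mul, a.mul_inv, det_one]
  revert h
  generalize a.val.det = x
  generalize a⁻¹.val.det = y
  revert x y
  decide

theorem core (S : Finset M3ˣ) (hc : S.card ≤ 7)
    (h : ∀ p q r s, ∑ a ∈ S, a⁻¹.val p q * a.val r s = vv p q * vv r s) : False := by
  classical
  have hpar : (S.card : ZMod 2) = 0 := by
    have h1 : ∑ q, ∑ a ∈ S, a⁻¹.val 0 q * a.val q 0 = ∑ q, vv 0 q * vv q 0 :=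
      Finset.sum_congr rfl fun q _ => h 0 q q 0
    rw [Finset.sum_comm] at h1
    have h2 : ∀ a : M3ˣ, ∑ q, a⁻¹.val 0 q * a.val q 0 = 1 := fun a => by
      rw [← Matrix.mul_apply, a.inv_mul, one_apply_eq]
    simp only [h2, Finset.sum_const, nsmul_eq_mul, mul_one] at h1
    rw [h1]
    decide
  rw [ZMod.natCast_eq_zero_iff_even] at hpar
  let fA : Option S → M3 := fun o => o.elim vv fun a => a.1⁻¹.val
  let fB : Option S → M3 := fun o => o.elim vv fun a => a.1.val
  let A : Matrix (Fin 3 × Fin 3) (Option S) (ZMod 2) := fun x o => fA o x.1 x.2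
  let B : Matrix (Option S) (Fin 3 × Fin 3) (ZMod 2) := fun o x => fB o x.1 x.2
  have hAB : A * B = 0 := by
    ext ⟨p, q⟩ ⟨r, s⟩
    rw [Matrix.mul_apply, Fintype.sum_option]
    simp only [A, B, fA, fB, Option.elim]
    rw [Finset.sum_coe_sort S (fun a => a⁻¹.val p q * a.val r s), h]
    exact CharTwo.add_self_eq_zero _
  have hr := rank_add_rank_le_card_of_mul_eq_zero hAB
  rw [rank_eq_finrank_span_cols, rank_eq_finrank_span_row, Fintype.card_option,
    Fintype.card_coe] at hr
  let e : (Fin 3 × Fin 3 → ZMod 2) ≃ₗ[ZMod 2] M3 :=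
    (LinearEquiv.curry (ZMod 2) (ZMod 2) (Fin 3) (Fin 3)).trans (Matrix.ofLinearEquiv (ZMod 2))
  have hA := side (S.image fun a => a⁻¹.val) (by
      intro a ha
      obtain ⟨b, -, rfl⟩ := Finset.mem_image.1 ha
      exact det_unit b⁻¹) ((Submodule.span (ZMod 2) (Set.range A.col)).map e.toLinearMap)
    ⟨_, Submodule.subset_span ⟨none, rfl⟩, rfl⟩ (by
      intro a ha
      obtain ⟨b, hb, rfl⟩ := Finset.mem_image.1 ha
      exact ⟨_, Submodule.subset_span ⟨some ⟨b, hb⟩, rfl⟩, rfl⟩)
  have hB := side (S.image fun a => a.val) (by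
      intro a ha
      obtain ⟨b, -, rfl⟩ := Finset.mem_image.1 ha
      exact det_unit b) ((Submodule.span (ZMod 2) (Set.range B.row)).map e.toLinearMap)
    ⟨_, Submodule.subset_span ⟨none, rfl⟩, rfl⟩ (by
      intro a ha
      obtain ⟨b, hb, rfl⟩ := Finset.mem_image.1 ha
      exact ⟨_, Submodule.subset_span ⟨some ⟨b, hb⟩, rfl⟩, rfl⟩)
  rw [LinearEquiv.finrank_map_eq, Finset.card_image_of_injective _
    fun a b h => inv_injective (Units.ext h)] at hA
  rw [LinearEquiv.finrank_map_eq, Finset.card_image_of_injective _ Units.val_injective] at hB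
  generalize Module.finrank (ZMod 2) (Submodule.span (ZMod 2) (Set.range A.col)) = x at *
  generalize Module.finrank (ZMod 2) (Submodule.span (ZMod 2) (Set.range B.row)) = y at *
  generalize S.card = c at *
  obtain ⟨a1, a2⟩ := hA
  obtain ⟨b1, b2⟩ := hB
  have hx : x ≤ 8 := by omega
  have hy : y ≤ 8 := by omega
  obtain ⟨k, rfl⟩ := hpar
  have hk : k ≤ 3 := by omega
  interval_cases k <;> interval_cases x <;> interval_cases y <;> omega

theorem list_red {G : Type} (L : List G) : ∃ S : Finset G, S.card ≤ L.length ∧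
    ∀ f : G → ZMod 2, ∑ a ∈ S, f a = (L.map f).sum := by
  classical
  induction L with
  | nil => exact ⟨∅, le_rfl, fun f => by simp⟩
  | cons a L ih =>
    obtain ⟨S, h1, h2⟩ := ih
    by_cases ha : a ∈ S
    · refine ⟨S.erase a, by rw [Finset.card_erase_of_mem ha]; simp; omega, fun f => ?_⟩
      rw [List.map_cons, List.sum_cons, ← h2, ← Finset.add_sum_erase _ _ ha, ← add_assoc,
        CharTwo.add_self_eq_zero, zero_add]
    · refine ⟨insert a S, by rw [Finset.card_insert_of_notMem ha]; simpa using h1, fun f => ?_⟩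
      rw [List.map_cons, List.sum_cons, ← h2, Finset.sum_insert ha]

end Pool.Agent.H.MP_2b3a02_al
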