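import Pool.Agent.H.MP_2b3a02_al.B

set_option autoImplicit false

namespace Pool.Agent.H.MP_2b3a02_al

open Matrix

/-- the test ring -/
abbrev RR : Type := TrivSqZeroExt (ZMod 2) (Fin 3 × Fin 3 → ZMod 2)

theorem RR_sr1 : SR1 RR := by
  rintro a b ⟨x, y, h⟩
  have h1 := congrArg TrivSqZeroExt.fst h
  simp only [TrivSqZeroExt.fst_add, TrivSqZeroExt.fst_mul, TrivSqZeroExt.fst_one] at h1
  have key : ∀ x a y b : ZMod 2, x * a + y * b = 1 → a = 1 ∨ a + 1 * b = 1 := by decide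
  rcases key _ _ _ _ h1 with h2 | h2
  · refine ⟨0, TrivSqZeroExt.isUnit_iff_isUnit_fst.2 ?_⟩
    simp [h2]
  · refine ⟨1, TrivSqZeroExt.isUnit_iff_isUnit_fst.2 ?_⟩
    simp only [TrivSqZeroExt.fst_add, TrivSqZeroExt.fst_mul, TrivSqZeroExt.fst_one, h2]
    exact isUnit_one

/-- the generic nilpotent matrix -/
def MM : Matrix (Fin 3) (Fin 3) RR := Matrix.of fun i j => TrivSqZeroExt.inr (Pi.single (i, j) 1)

theorem mul_nil (A B : Matrix (Fin 3) (Fin 3) RR) (hA : ∀ i j, (A i j).fst = 0)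
    (hB : ∀ i j, (B i j).fst = 0) : A * B = 0 := by
  ext i j
  · simp [Matrix.mul_apply, TrivSqZeroExt.fst_sum, hA]
  · simp [Matrix.mul_apply, TrivSqZeroExt.snd_sum, hA, hB]

theorem MM_sq : (1 + MM) * (1 + MM) = 1 := by
  have h1 : MM * MM = 0 := mul_nil _ _ (fun _ _ => rfl) (fun _ _ => rfl)
  have h2 : MM + MM = 0 := by
    ext i j x
    · simp [MM]
    · simp [MM, CharTwo.add_self_eq_zero]
  rw [mul_add, add_mul, add_mul, h1]
  simp [add_assoc, h2]

/-- the test matrix -/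
def sg : (Matrix (Fin 3) (Fin 3) RR)ˣ := ⟨1 + MM, 1 + MM, MM_sq, MM_sq⟩

/-- reduction -/
def red : (Matrix (Fin 3) (Fin 3) RR)ˣ →* M3ˣ :=
  Units.map (RingHom.mapMatrix (TrivSqZeroExt.fstHom (ZMod 2) (ZMod 2) _).toRingHom).toMonoidHom

theorem red_inv (τ : (Matrix (Fin 3) (Fin 3) RR)ˣ) (p q : Fin 3) :
    (red τ)⁻¹.val p q = (τ⁻¹.val p q).fst := rfl

theorem red_val (τ : (Matrix (Fin 3) (Fin 3) RR)ˣ) (p q : Fin 3) :
    (red τ).val p q = (τ.val p q).fst := rfl

theorem prod_eq (L : List (Matrix (Fin 3) (Fin 3) RR)ˣ) (hL : ∀ g ∈ L, Fac sg g) :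
    ∃ T : List M3ˣ, T.length = L.length ∧ ∃ N : Matrix (Fin 3) (Fin 3) RR, L.prod.val = 1 + N ∧
      (∀ i j, (N i j).fst = 0) ∧
      ∀ p q r s, (N p s).snd (q, r) = (T.map fun a => a⁻¹.val p q * a.val r s).sum := by
  induction L with
  | nil => exact ⟨[], rfl, 0, by simp, by simp, by simp⟩
  | cons g L ih =>
    obtain ⟨T, h1, N, h2, h3, h4⟩ := ih fun x hx => hL x (List.mem_cons_of_mem _ hx)
    obtain ⟨τ, -, h⟩ := hL g List.mem_cons_self
    have hg : g.val = 1 + τ⁻¹.val * MM * τ.val := by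
      have : g = τ⁻¹ * sg * τ := h.elim id id
      rw [this, Units.val_mul, Units.val_mul]
      simp only [sg, mul_add, add_mul, mul_one, Units.inv_mul]
    have h5 : ∀ i j, ((τ⁻¹.val * MM * τ.val) i j).fst = 0 := by
      intro i j
      simp [Matrix.mul_apply, TrivSqZeroExt.fst_sum, MM]
    refine ⟨red τ :: T, by simp [h1], τ⁻¹.val * MM * τ.val + N, ?_, fun i j => ?_, ?_⟩
    · rw [List.prod_cons, Units.val_mul, hg, h2, mul_add, add_mul, add_mul,
        mul_nil _ N h5 h3]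
      simp [add_assoc]
    · rw [Matrix.add_apply, TrivSqZeroExt.fst_add, h5, h3, add_zero]
    · intro p q r s
      rw [Matrix.add_apply, TrivSqZeroExt.snd_add, Pi.add_apply, h4, List.map_cons, List.sum_cons,
        red_inv, red_val]
      congr 1
      generalize τ⁻¹.val = A
      generalize τ.val = B
      simp [Matrix.mul_apply, TrivSqZeroExt.snd_sum, TrivSqZeroExt.fst_sum, MM, Pi.single_apply,
        Finset.sum_mul, ite_and, mul_comm]

theorem not_rdu (m : ℕ) (h : RDU RR m) : 8 ≤ m := by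
  by_contra hm
  obtain ⟨L, l1, l2, l3⟩ := h 3 le_rfl sg 0 1 1 0 (by decide) (by decide)
  obtain ⟨T, h1, N, h2, h3, h4⟩ := prod_eq L l2
  obtain ⟨S, s1, s2⟩ := list_red T
  refine core S (by omega) fun p q r s => ?_
  rw [s2 fun a => a⁻¹.val p q * a.val r s, ← h4]
  rw [h2, add_right_inj] at l3
  rw [l3]
  fin_cases p <;> fin_cases q <;> fin_cases r <;> fin_cases s <;>
    simp [sg, MM, vv]

/-- von Neumann regular -/
def VNR (R : Type) [Ring R] : Prop := ∀ a : R, ∃ x : R, a * x * a = a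

/-- companion matrix -/
def cp : (Matrix (Fin 3) (Fin 3) (ZMod 7))ˣ :=
  ⟨!![0, 0, 3; 1, 0, 0; 0, 1, 0], !![0, 1, 0; 0, 0, 1; 5, 0, 0], by decide, by decide⟩

theorem fac_cp (g : (Matrix (Fin 3) (Fin 3) (ZMod 7))ˣ) (h : Fac cp g) :
    (g.val.det = 3 ∨ g.val.det = 5) ∧ g.val.trace = 0 ∧ (g.val * g.val).trace = 0 ∧
      ∃ c : ZMod 7, (c = 3 ∨ c = 5) ∧ g.val * g.val * g.val = c • 1 := by
  obtain ⟨τ, -, h⟩ := h
  have key : ∀ (s : (Matrix (Fin 3) (Fin 3) (ZMod 7))ˣ) (c : ZMod 7), (c = 3 ∨ c = 5) →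
      s.val.det = c → s.val.trace = 0 → (s.val * s.val).trace = 0 →
      s.val * s.val * s.val = c • 1 → g = τ⁻¹ * s * τ →
      (g.val.det = 3 ∨ g.val.det = 5) ∧ g.val.trace = 0 ∧ (g.val * g.val).trace = 0 ∧
        ∃ c : ZMod 7, (c = 3 ∨ c = 5) ∧ g.val * g.val * g.val = c • 1 := by
    intro s c hc h1 h2 h3 h4 e
    have e2 : g * g = τ⁻¹ * (s * s) * τ := by rw [e]; group
    have e3 : g * g * g = τ⁻¹ * (s * s * s) * τ := by rw [e]; group
    refine ⟨?_, ?_, ?_, c, hc, ?_⟩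
    · rw [e, Units.val_mul, Units.val_mul, det_units_conj', h1]
      exact hc
    · rw [e, Units.val_mul, Units.val_mul, trace_units_conj', h2]
    · rw [← Units.val_mul, e2, Units.val_mul, Units.val_mul, trace_units_conj', Units.val_mul, h3]
    · rw [← Units.val_mul, ← Units.val_mul, e3, Units.val_mul, Units.val_mul, Units.val_mul,
        Units.val_mul, h4]
      simp
  rcases h with h | h
  · exact key cp 3 (Or.inl rfl) (by rw [det_fin_three]; decide) (by decide) (by decide)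
      (by decide) h
  · exact key cp⁻¹ 5 (Or.inr rfl) (by rw [det_fin_three]; decide) (by decide) (by decide)
      (by decide) h

theorem two_case (B : Matrix (Fin 3) (Fin 3) (ZMod 7)) (c : ZMod 7) (hc : c = 3 ∨ c = 5)
    (a1 : ((1 + single 0 1 1) * B).trace = 0)
    (a2 : ((1 + single 0 1 1) * B * ((1 + single 0 1 1) * B)).trace = 0)
    (b1 : B.trace = 0) (b2 : (B * B).trace = 0) (b3 : B * B * B = c • 1) : False := by
  have c0 := congrFun (congrFun b3 0) 0
  have c1 := congrFun (congrFun b3 1) 1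
  have e : (1 + single 0 1 1) * B = !![B 0 0 + B 1 0, B 0 1 + B 1 1, B 0 2 + B 1 2;
      B 1 0, B 1 1, B 1 2; B 2 0, B 2 1, B 2 2] := by
    ext i j
    fin_cases i <;> fin_cases j <;> simp [add_mul]
  rw [e] at a1 a2
  simp [trace, Matrix.mul_apply, Fin.sum_univ_three] at a1 a2 b1 b2 c0 c1
  have h1 : B 1 0 = 0 := by linear_combination a1 - b1
  have h2 : (2 : ZMod 7) * (B 1 2 * B 2 0) = 0 := by
    rw [h1] at a2 b2
    linear_combination a2 - b2
  have h7 : ∀ x y : ZMod 7, 2 * (x * y) = 0 → x = 0 ∨ y = 0 := by decide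
  have cube : ∀ z c : ZMod 7, (c = 3 ∨ c = 5) → z * z * z ≠ c := by decide
  rcases h7 _ _ h2 with h3 | h3
  · rw [h1, h3] at c1
    exact cube (B 1 1) c hc (by linear_combination c1)
  · rw [h1, h3] at c0
    exact cube (B 0 0) c hc (by linear_combination c0)

theorem not_rdu_vnr (m : ℕ) (h : RDU (ZMod 7) m) : 4 ≤ m := by
  by_contra hm
  obtain ⟨L, l1, l2, l3⟩ := h 3 le_rfl cp 0 1 1 0 (by decide) (by decide)
  have e1 : cp.val 1 0 = 1 := rfl
  rw [e1] at l3
  have hd : L.prod.val.det = 1 := by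
    rw [l3, det_fin_three]
    decide
  rcases L with _ | ⟨a, _ | ⟨b, _ | ⟨c, _ | ⟨d, L⟩⟩⟩⟩
  · exact absurd (congrFun (congrFun l3 0) 1) (by decide)
  · rw [List.prod_singleton] at hd
    have := (fac_cp a (l2 a (by simp))).1
    rw [hd] at this
    exact absurd this (by decide)
  · have hb : Fac cp b⁻¹ := by
      obtain ⟨τ, hτ, h⟩ := l2 b (by simp)
      refine ⟨τ, hτ, ?_⟩
      rcases h with rfl | rfl
      · right
        simp [mul_assoc]
      · left
        simp [mul_assoc]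
    obtain ⟨-, a1, a2, -⟩ := fac_cp a (l2 a (by simp))
    obtain ⟨-, b1, b2, c, hc, b3⟩ := fac_cp _ hb
    have e : a.val = (1 + single 0 1 1) * b⁻¹.val := by
      rw [← l3, List.prod_cons, List.prod_singleton, ← Units.val_mul, mul_inv_cancel_right]
    rw [e] at a1 a2
    exact two_case _ c hc a1 a2 b1 b2 b3
  · simp only [List.prod_cons, List.prod_nil, mul_one, Units.val_mul, det_mul] at hd
    have : ∀ x y z : ZMod 7, (x = 3 ∨ x = 5) → (y = 3 ∨ y = 5) → (z = 3 ∨ z = 5) →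
      x * (y * z) ≠ 1 := by decide
    exact this _ _ _ (fac_cp a (l2 a (by simp))).1 (fac_cp b (l2 b (by simp))).1
      (fac_cp c (l2 c (by simp))).1 hd
  · simp only [List.length_cons] at l1
    omega

end Pool.Agent.H.MP_2b3a02_al
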